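import Pool.Agent.H26.LT.Main
import Pool.Agent.H26.LT.COne
import Pool.Agent.H26.LT.COdd
import Pool.Agent.H52.UX.Main

/-!
Families avoiding one intersection size and disjoint pairs (MP_28c1b3_co, Q1): the maximum and all
extremal families, for every `t ≥ 1`, with the condition for distinct members only and with the
condition for all members.
-/

open Finset Pool.Agent.H26.LT Pool.Agent.H52.UX

namespace Pool.Agent.Results.MP_28c1b3_co.BothReadings

/-- `IsAvoiding t F`: no two distinct members of `F` meet in exactly `t` elements. -/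
def IsAvoiding (t : ℕ) (F : Finset (Finset ℕ)) : Prop :=
  ∀ A ∈ F, ∀ B ∈ F, A ≠ B → (A ∩ B).card ≠ t

/-- `IsStronglyAvoiding t F`: no two members of `F`, distinct or equal, meet in exactly `t` elements
(so `F` has no member of size `t`). -/
def IsStronglyAvoiding (t : ℕ) (F : Finset (Finset ℕ)) : Prop :=
  ∀ A ∈ F, ∀ B ∈ F, (A ∩ B).card ≠ t

/-- The number `d(F)` of unordered pairs `{A, B}` of distinct members of `F` with `A ∩ B = ∅`:
the number of two-element subfamilies of `F` whose two members are disjoint. -/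
def disjPairs (F : Finset (Finset ℕ)) : ℕ :=
  ((F.powersetCard 2).filter (fun P => ∀ A ∈ P, ∀ B ∈ P, A ≠ B → A ∩ B = ∅)).card

/-- The family `F(n,t)` of subsets of `[n] = {1,…,n}`. -/
def baseFamily (n t : ℕ) : Finset (Finset ℕ) :=
  if Odd (n + t) then (Icc 1 n).powerset.filter (fun A => n + t + 1 ≤ 2 * A.card)
  else (Icc 1 n).powerset.filter (fun A => n + t ≤ 2 * (A ∩ (Icc 1 n \ {1})).card)

/-- The family `F*(n,t) = F(n,t) ∪ [n]^(≤ t-1)`. -/
def starFamily (n t : ℕ) : Finset (Finset ℕ) :=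
  baseFamily n t ∪ (Icc 1 n).powerset.filter (fun A => A.card + 1 ≤ t)

/-- The family of `∅`, `{1}` and all `A ⊆ {2,…,n}` with `2|A| ≥ n + 1`. -/
def oddFamily (n : ℕ) : Finset (Finset ℕ) :=
  insert ∅ (insert {1} ((Icc 2 n).powerset.filter (fun A => n + 1 ≤ 2 * A.card)))

/-- `F` is the image of `G` under a permutation of `[n]`. -/
def IsImage (n : ℕ) (F G : Finset (Finset ℕ)) : Prop :=
  ∃ σ : Equiv.Perm ℕ, (∀ i ∈ Icc 1 n, σ i ∈ Icc 1 n) ∧ F = G.image (fun A => A.image σ)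

/-- **The complete answer, with all extremal families.**  There are numbers `n₀(t)`, with
`n₀(1) = 0`, such that:
1. With the condition for all pairs of members, distinct or equal: `d(F) ≤ d(F*(n,t))` for every
   `t ≥ 1` and `n ≥ n₀(t)`.
2. With the condition for distinct members only (members of size `t` are allowed): the same for every
   `t ≥ 2` and `n ≥ n₀(t)`.
3. With the condition for distinct members only and `t = 1`: for `n ≥ 6` the same for even `n`, and
   `d(F) ≤ d(F*(n,1)) + 1` for odd `n`.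
4. The last bound is attained for every odd `n`.
5. Hence the question as worded (all `t ≥ 1`, condition for distinct members) has a negative answer.
6. Equality in 1 and 2 for `t ≥ 2`: exactly for the images of `F*(n,t)` under permutations of `[n]`.
7. Equality in 1 for `t = 1`, `n ≥ 6`: exactly for the images of `F*(n,1)`.
8. Equality in 3 for even `n ≥ 6`: exactly for the images of `F*(n,1)`.
9. Equality in 3 for odd `n ≥ 7`: exactly for the images of the family of `∅`, `{1}` and all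
   `A ⊆ {2,…,n}` with `2|A| ≥ n + 1`. -/
theorem result : ∃ n₀ : ℕ → ℕ, n₀ 1 = 0 ∧
    (∀ t ≥ 1, ∀ n ≥ n₀ t, ∀ F : Finset (Finset ℕ), (∀ A ∈ F, A ⊆ Icc 1 n) →
      IsStronglyAvoiding t F → disjPairs F ≤ disjPairs (starFamily n t)) ∧
    (∀ t ≥ 2, ∀ n ≥ n₀ t, ∀ F : Finset (Finset ℕ), (∀ A ∈ F, A ⊆ Icc 1 n) →
      IsAvoiding t F → disjPairs F ≤ disjPairs (starFamily n t)) ∧
    (∀ n ≥ 6, ∀ F : Finset (Finset ℕ), (∀ A ∈ F, A ⊆ Icc 1 n) → IsAvoiding 1 F →
      disjPairs F ≤ disjPairs (starFamily n 1) + (if Odd n then 1 else 0)) ∧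
    (∀ n : ℕ, Odd n → ∃ F : Finset (Finset ℕ), (∀ A ∈ F, A ⊆ Icc 1 n) ∧ IsAvoiding 1 F ∧
      disjPairs F = disjPairs (starFamily n 1) + 1) ∧
    ¬ (∀ t ≥ 1, ∃ m : ℕ, ∀ n ≥ m, ∀ F : Finset (Finset ℕ), (∀ A ∈ F, A ⊆ Icc 1 n) →
      IsAvoiding t F → disjPairs F ≤ disjPairs (starFamily n t)) ∧
    (∀ t ≥ 2, ∀ n ≥ n₀ t, ∀ F : Finset (Finset ℕ), (∀ A ∈ F, A ⊆ Icc 1 n) → IsAvoiding t F →
      (disjPairs F = disjPairs (starFamily n t) ↔ IsImage n F (starFamily n t))) ∧
    (∀ n ≥ 6, ∀ F : Finset (Finset ℕ), (∀ A ∈ F, A ⊆ Icc 1 n) → IsStronglyAvoiding 1 F →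
      (disjPairs F = disjPairs (starFamily n 1) ↔ IsImage n F (starFamily n 1))) ∧
    (∀ n ≥ 6, Even n → ∀ F : Finset (Finset ℕ), (∀ A ∈ F, A ⊆ Icc 1 n) → IsAvoiding 1 F →
      (disjPairs F = disjPairs (starFamily n 1) ↔ IsImage n F (starFamily n 1))) ∧
    (∀ n ≥ 7, Odd n → ∀ F : Finset (Finset ℕ), (∀ A ∈ F, A ⊆ Icc 1 n) → IsAvoiding 1 F →
      (disjPairs F = disjPairs (starFamily n 1) + 1 ↔ IsImage n F (oddFamily n))) := by
  classical
  have h2 : ∀ t : ℕ, ∃ n₀ : ℕ, 2 ≤ t → ∀ n ≥ n₀, ∀ F : Finset (Finset ℕ),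
      (∀ A ∈ F, A ⊆ Icc 1 n) → IsAvoiding t F → disjPairs F ≤ disjPairs (starFamily n t) ∧
        (disjPairs F = disjPairs (starFamily n t) ↔ IsImage n F (starFamily n t)) := by
    intro t
    by_cases ht : 2 ≤ t
    · obtain ⟨n₁, h0⟩ := literal_bound t ht
      obtain ⟨n₂, h1⟩ := avoid_ge_two t ht
      exact ⟨max n₁ n₂, fun _ n hn F hV hF => ⟨h0 n (le_trans (le_max_left _ _) hn) F hV hF,
        h1 n (le_trans (le_max_right _ _) hn) F hV hF⟩⟩
    · exact ⟨0, fun h => absurd h ht⟩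
  choose m hm using h2
  have hodd : ∀ n : ℕ, Odd n → ∃ F : Finset (Finset ℕ), (∀ A ∈ F, A ⊆ Icc 1 n) ∧
      IsAvoiding 1 F ∧ disjPairs F = disjPairs (starFamily n 1) + 1 := by
    intro n hn
    obtain ⟨F, hF1, hF2, hF3⟩ := COdd.odd_one.1 n hn
    exact ⟨F, fun A hA => mem_powerset.1 (hF1 hA), hF2, hF3⟩
  refine ⟨fun t => if t = 1 then 0 else m t, by simp, fun t ht n hn F hV hF => ?_,
    fun t ht n hn F hV hF => ?_, fun n hn F hV hF => COne.case_one.2 n hn F hV hF,
    hodd, fun h => ?_, fun t ht n hn F hV hF => ?_, fun n hn F hV hF => strong_one hn F hV hF,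
    fun n hn he F hV hF => distinct_even hn he F hV hF,
    fun n hn ho F hV hF => distinct_odd hn ho F hV hF⟩
  · by_cases h1 : t = 1
    · subst h1
      exact COne.case_one.1 n F hV hF
    · have hn' : m t ≤ n := by simpa [h1] using hn
      exact (hm t (by omega) n hn' F hV fun A hA B hB _ => hF A hA B hB).1
  · have h1 : t ≠ 1 := by omega
    have hn' : m t ≤ n := by simpa [h1] using hn
    exact (hm t ht n hn' F hV hF).1
  · obtain ⟨k, hk⟩ := h 1 le_rfl
    obtain ⟨F, hF1, hF2, hF3⟩ := hodd (2 * k + 1) ⟨k, rfl⟩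
    have := hk (2 * k + 1) (by omega) F hF1 hF2
    omega
  · have h1 : t ≠ 1 := by omega
    have hn' : m t ≤ n := by simpa [h1] using hn
    exact (hm t ht n hn' F hV hF).2

end Pool.Agent.Results.MP_28c1b3_co.BothReadings
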